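import Pool.Agent.H29.ET.Defs

open Finset

namespace ETFar

/-- read the cells of the list `l` one after the other, collect the answers `acc`, decide at the
end with `F` -/
def readAll {κ β : Type} : List κ → List (κ × β) → (List (κ × β) → Bool) → Tree κ β
  | [], acc, F => .leaf (F acc)
  | c :: l, acc, F => .read c (fun b => readAll l ((c, b) :: acc) F)

theorem readAll_reads {κ β : Type} (F : List (κ × β) → Bool) (x : κ → β) :
    ∀ (l : List κ) (acc : List (κ × β)), (readAll l acc F).reads x = l.length := by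
  intro l
  induction l with
  | nil => intro acc; rfl
  | cons c l ih => intro acc; rw [readAll, Tree.reads, ih]; rfl

theorem readAll_run {κ β : Type} (F : List (κ × β) → Bool) (x : κ → β) :
    ∀ (l : List κ) (acc : List (κ × β)),
      (readAll l acc F).run x = F ((l.map (fun c => (c, x c))).reverse ++ acc) := by
  intro l
  induction l with
  | nil => intro acc; rfl
  | cons c l ih =>
    intro acc
    rw [readAll, Tree.run, ih]
    simp

open Classical in
theorem readAll_spec {κ β : Type} [Inhabited β] (l : List κ) (Q : (κ → β) → Prop)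
    (hQ : ∀ x y : κ → β, (∀ c ∈ l, x c = y c) → (Q x ↔ Q y)) :
    ∃ T : Tree κ β, (∀ x, T.reads x = l.length) ∧ ∀ x, T.run x = true ↔ Q x := by
  let rd : List (κ × β) → κ → β := fun ans c =>
    if h : ∃ b, (c, b) ∈ ans then h.choose else default
  refine ⟨readAll l [] (fun ans => decide (Q (rd ans))), fun x => readAll_reads _ x l [], ?_⟩
  intro x
  rw [readAll_run, decide_eq_true_iff]
  apply hQ
  intro c hc
  have hmem : (c, x c) ∈ (l.map (fun c => (c, x c))).reverse ++ [] := by
    simp only [List.append_nil, List.mem_reverse, List.mem_map]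
    exact ⟨c, hc, rfl⟩
  have hex : ∃ b, (c, b) ∈ (l.map (fun c => (c, x c))).reverse ++ [] := ⟨_, hmem⟩
  simp only [rd]
  rw [dif_pos hex]
  have hs := hex.choose_spec
  generalize hex.choose = b at hs ⊢
  simp only [List.append_nil, List.mem_reverse, List.mem_map, Prod.mk.injEq] at hs
  obtain ⟨c', -, rfl, h⟩ := hs
  exact h.symm

theorem sampler (n s₁ s₂ s₃ : ℕ) :
    ∃ A : (Fin s₁ → Fin n) × (Fin s₂ → Fin n) × (Fin s₃ → Fin n) →
        Tree (Fin n × Fin n) (Bool × ℤ),
      (∀ σ x, (A σ).reads x ≤ s₁ * s₂ + s₂ * s₃ + s₁ * s₃) ∧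
      ∀ σ x, (A σ).run x = true ↔ ∃ a b c, Zero x (σ.1 a) (σ.2.1 b) (σ.2.2 c) := by
  classical
  have key : ∀ σ : (Fin s₁ → Fin n) × (Fin s₂ → Fin n) × (Fin s₃ → Fin n),
      ∃ T : Tree (Fin n × Fin n) (Bool × ℤ),
        (∀ x, T.reads x ≤ s₁ * s₂ + s₂ * s₃ + s₁ * s₃) ∧
        ∀ x, T.run x = true ↔ ∃ a b c, Zero x (σ.1 a) (σ.2.1 b) (σ.2.2 c) := by
    intro σ
    let S1 : Finset (Fin n × Fin n) :=
      (univ : Finset (Fin s₁ × Fin s₂)).image (fun p => (σ.1 p.1, σ.2.1 p.2))
    let S2 : Finset (Fin n × Fin n) :=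
      (univ : Finset (Fin s₂ × Fin s₃)).image (fun p => (σ.2.1 p.1, σ.2.2 p.2))
    let S3 : Finset (Fin n × Fin n) :=
      (univ : Finset (Fin s₁ × Fin s₃)).image (fun p => (σ.1 p.1, σ.2.2 p.2))
    let l : List (Fin n × Fin n) := (S1 ∪ S2 ∪ S3).toList
    obtain ⟨T, hT1, hT2⟩ := readAll_spec (β := Bool × ℤ) l
      (fun x => ∃ a b c, Zero x (σ.1 a) (σ.2.1 b) (σ.2.2 c)) (by
        intro x y hxy
        have h1 : ∀ a b, x (σ.1 a, σ.2.1 b) = y (σ.1 a, σ.2.1 b) := by
          intro a b
          apply hxy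
          simp only [l, Finset.mem_toList, Finset.mem_union]
          exact Or.inl (Or.inl (Finset.mem_image.2 ⟨(a, b), Finset.mem_univ _, rfl⟩))
        have h2 : ∀ b c, x (σ.2.1 b, σ.2.2 c) = y (σ.2.1 b, σ.2.2 c) := by
          intro b c
          apply hxy
          simp only [l, Finset.mem_toList, Finset.mem_union]
          exact Or.inl (Or.inr (Finset.mem_image.2 ⟨(b, c), Finset.mem_univ _, rfl⟩))
        have h3 : ∀ a c, x (σ.1 a, σ.2.2 c) = y (σ.1 a, σ.2.2 c) := by
          intro a c
          apply hxy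
          simp only [l, Finset.mem_toList, Finset.mem_union]
          exact Or.inr (Finset.mem_image.2 ⟨(a, c), Finset.mem_univ _, rfl⟩)
        have : ∀ a b c, Zero x (σ.1 a) (σ.2.1 b) (σ.2.2 c) ↔
            Zero y (σ.1 a) (σ.2.1 b) (σ.2.2 c) := by
          intro a b c
          unfold Zero
          rw [h1 a b, h2 b c, h3 a c]
        simp only [this])
    refine ⟨T, fun x => ?_, hT2⟩
    rw [hT1]
    simp only [l, Finset.length_toList]
    have c1 : S1.card ≤ s₁ * s₂ := by
      refine Finset.card_image_le.trans ?_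
      simp
    have c2 : S2.card ≤ s₂ * s₃ := by
      refine Finset.card_image_le.trans ?_
      simp
    have c3 : S3.card ≤ s₁ * s₃ := by
      refine Finset.card_image_le.trans ?_
      simp
    have u1 := Finset.card_union_le (S1 ∪ S2) S3
    have u2 := Finset.card_union_le S1 S2
    omega
  choose A hA1 hA2 using key
  exact ⟨A, hA1, hA2⟩

end ETFar
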